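import Pool.Agent.H93.DE.Targets

/-!
# MP_c59857_nt, row DCR: one step of the entropy decrement
-/

set_option autoImplicit false

open Finset Pool.Agent.H18.MR Pool.Agent.H93.DE

namespace Pool.Agent.H46.DE

theorem rs_eq {N Q : ℕ} [NeZero N] (h : Q ∣ N) (n : ZMod N) :
    rs N Q n = ZMod.castHom h (ZMod Q) n := by
  rw [rs, ZMod.castHom_apply, ZMod.natCast_val]

theorem rs_add {N Q : ℕ} [NeZero N] (h : Q ∣ N) (n : ZMod N) (L : ℕ) :
    rs N Q (n + (L : ZMod N)) = rs N Q n + (L : ZMod Q) := by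
  rw [rs_eq h, rs_eq h, map_add, map_natCast]

theorem pf_DCR (hUNI : T_UNI) : T_DCR := by
  intro γ _ _ N M P L _ x hM hP hMP hd
  obtain ⟨hU1, hU2⟩ := hUNI
  have hM' : NeZero M := ⟨hM.ne'⟩
  have hP' : NeZero P := ⟨hP.ne'⟩
  have hMP' : NeZero (M * P) := ⟨(Nat.mul_pos hM hP).ne'⟩
  set μ := unif N with hμ
  -- subadditivity
  have h1 := ent_submod μ (fun n => wd x L n) (fun n => wd x L (n + (L : ZMod N)))
    (fun n => rs N (M * P) n)
  have h2 : ent μ (fun n => (wd x (2 * L) n, rs N (M * P) n)) ≤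
      ent μ (fun n => (wd x L n, wd x L (n + (L : ZMod N)), rs N (M * P) n)) := by
    have h3 := ent_comp_le μ (fun n => (wd x L n, wd x L (n + (L : ZMod N)), rs N (M * P) n))
      (fun t => ((fun i : Fin (2 * L) => if h : (i : ℕ) < L then t.1 ⟨i, h⟩ else
        t.2.1 ⟨(i : ℕ) - L, by omega⟩ : Fin (2 * L) → γ), t.2.2))
    refine le_of_eq_of_le ?_ h3
    congr 1
    funext n
    refine Prod.ext ?_ rfl
    funext i
    simp only [wd]
    by_cases h : (i : ℕ) < L
    · rw [dif_pos h]
    · rw [dif_neg h]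
      congr 1
      rw [add_assoc, ← Nat.cast_add, Nat.add_sub_of_le (by omega)]
  have h3 : ent μ (fun n => (wd x L (n + (L : ZMod N)), rs N (M * P) n)) =
      ent μ (fun n => (wd x L n, rs N (M * P) n)) := by
    have h4 := hU1 ((Fin L → γ) × ZMod (M * P)) N (fun n => (wd x L n, rs N (M * P) n))
      (L : ZMod N)
    refine Eq.trans ?_ h4
    refine ent_congr_inj μ _ _ (fun t => (t.1, t.2 + (L : ZMod (M * P))))
      (fun t => (t.1, t.2 - (L : ZMod (M * P)))) ?_ ?_
    · intro n
      simp only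
      rw [rs_add hd]
    · intro n
      simp only
      rw [rs_add hd, add_sub_cancel_right]
  have h4 : ent μ (fun n => rs N (M * P) n) = Real.log ((M * P : ℕ) : ℝ) :=
    (hU2 N (M * P) hd).2
  have h5 : ent μ (fun n => rs N P n) = Real.log P :=
    (hU2 N P ((Dvd.intro_left M rfl).trans hd)).2
  have h6 : ent μ (fun n => (wd x L n, rs N (M * P) n)) =
      ent μ (fun n => ((wd x L n, rs N M n), rs N P n)) := by
    have key : ∀ n : ZMod N, ZMod.chineseRemainder hMP (rs N (M * P) n) =
        (rs N M n, rs N P n) := by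
      intro n
      rw [rs, map_natCast]
      rfl
    refine ent_congr_inj μ _ _
      (fun t => ((t.1, (ZMod.chineseRemainder hMP t.2).1), (ZMod.chineseRemainder hMP t.2).2))
      (fun t => (t.1.1, (ZMod.chineseRemainder hMP).symm (t.1.2, t.2))) ?_ ?_
    · intro n
      simp only
      rw [key]
    · intro n
      simp only
      rw [← key, RingEquiv.symm_apply_apply]
  have hMR : (M : ℝ) ≠ 0 := by exact_mod_cast hM.ne'
  have hPR : (P : ℝ) ≠ 0 := by exact_mod_cast hP.ne'
  have hlog : Real.log ((M * P : ℕ) : ℝ) = Real.log M + Real.log P := by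
    rw [Nat.cast_mul, Real.log_mul hMR hPR]
  have e1 : hc x (2 * L) (M * P) = ent μ (fun n => (wd x (2 * L) n, rs N (M * P) n)) -
      Real.log ((M * P : ℕ) : ℝ) := by
    unfold hc
    rw [dif_neg (Nat.mul_pos hM hP).ne']
  have e2 : hc x L M = ent μ (fun n => (wd x L n, rs N M n)) - Real.log M := by
    unfold hc
    rw [dif_neg hM.ne']
  have e3 : info x L M P = ent μ (fun n => (wd x L n, rs N M n)) + ent μ (fun n => rs N P n) -
      ent μ (fun n => ((wd x L n, rs N M n), rs N P n)) := by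
    unfold info
    rw [dif_neg hM.ne', dif_neg hP.ne']
    rfl
  rw [e1, e2, e3]
  linarith

end Pool.Agent.H46.DE
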