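import Pool.Agent.H93.DE.Targets

/-!
# MP_c59857_nt, row UNI: the uniform law on `ZMod N`
-/

set_option autoImplicit false

open Finset Pool.Agent.H18.MR Pool.Agent.H93.DE

namespace Pool.Agent.H46.DE.Uni

theorem rs_eq {N Q : ℕ} [NeZero N] (h : Q ∣ N) (n : ZMod N) :
    rs N Q n = ZMod.castHom h (ZMod Q) n := by
  rw [rs, ZMod.castHom_apply, ZMod.natCast_val]

theorem rs_add {N Q : ℕ} [NeZero N] (h : Q ∣ N) (n : ZMod N) (L : ℕ) :
    rs N Q (n + (L : ZMod N)) = rs N Q n + (L : ZMod Q) := by
  rw [rs_eq h, rs_eq h, map_add, map_natCast]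

theorem law_shift {α : Type} {N : ℕ} [NeZero N] (X : ZMod N → α) (k : ZMod N) :
    law (unif N) (fun n => X (n + k)) = law (unif N) X := by
  classical
  funext a
  simp only [law, unif]
  congr 2
  refine Finset.card_bij (fun n _ => n + k) ?_ ?_ ?_
  · intro n hn
    simpa using hn
  · intro n _ m _ h
    exact add_right_cancel h
  · intro n hn
    refine ⟨n - k, ?_, sub_add_cancel n k⟩
    simpa using hn

theorem law_rs {N M : ℕ} [NeZero N] [NeZero M] (h : M ∣ N) (r : ZMod M) :
    law (unif N) (fun n => rs N M n) r = 1 / M := by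
  have h1 : ∀ r : ZMod M, law (unif N) (fun n => rs N M n) r =
      law (unif N) (fun n => rs N M n) 0 := by
    intro r
    have h2 := law_shift (fun n => rs N M n) ((r.val : ℕ) : ZMod N)
    rw [← h2]
    have h3 : law (unif N) (fun n => rs N M (n + ((r.val : ℕ) : ZMod N))) r =
        law (unif N) (fun n => rs N M n) 0 := by
      unfold law
      congr 1
      ext n
      simp only [Set.mem_preimage, Set.mem_singleton_iff]
      rw [rs_add h, ZMod.natCast_zmod_val]
      constructor
      · intro h4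
        exact add_eq_right.1 h4
      · intro h4
        rw [h4, zero_add]
    rw [h3, h2]
  have h2 := law_sum (unif N) (fun n => rs N M n)
  rw [Finset.sum_congr rfl fun r _ => h1 r, Finset.sum_const, Finset.card_univ, ZMod.card,
    nsmul_eq_mul] at h2
  have hM : (M : ℝ) ≠ 0 := by exact_mod_cast NeZero.ne M
  rw [h1 r, eq_div_iff hM, mul_comm]
  exact h2

end Pool.Agent.H46.DE.Uni

namespace Pool.Agent.H46.DE

open Pool.Agent.H46.DE.Uni

theorem pf_UNI : T_UNI := by
  refine ⟨fun γ _ _ N _ X k => ?_, fun N M _ _ h => ⟨fun r => law_rs h r, ?_⟩⟩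
  · unfold ent
    rw [law_shift]
  · unfold ent
    simp_rw [law_rs h]
    simp only [Finset.sum_const, Finset.card_univ, ZMod.card, nsmul_eq_mul, one_div, Real.log_inv]
    have h2 : (M : ℝ) ≠ 0 := by exact_mod_cast NeZero.ne M
    field_simp

end Pool.Agent.H46.DE
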