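import Pool.Agent.H8.DE.Targets

/-!
# Row MC of the board `det_modules`: a machine with counters for each program
-/

set_option autoImplicit false

namespace Pool.Agent.H46.DE

open Pool.Agent.H69.Sp Pool.Agent.H69.VR Pool.Agent.H8.VR Pool.Agent.H8.JS Pool.Agent.H8.MC
  Pool.Agent.H8.DE

/-- the control states -/
inductive Qc (Q : Type) : Type
  | ini : Qc Q
  | rd : Qc Q
  | dbl (b : Bool) : Qc Q
  | db2 (b : Bool) : Qc Q
  | db3 (b : Bool) : Qc Q
  | run (s : Q) : Qc Q
  | fin : Qc Q
  | acc : Qc Q
  | rej : Qc Q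

instance {Q : Type} [Finite Q] : Finite (Qc Q) := by
  refine Finite.of_injective (β := Fin 9 × Bool × Option Q) (fun q => match q with
    | .ini => (0, false, none)
    | .rd => (1, false, none)
    | .dbl b => (2, b, none)
    | .db2 b => (3, b, none)
    | .db3 b => (4, b, none)
    | .run s => (5, false, some s)
    | .fin => (6, false, none)
    | .acc => (7, false, none)
    | .rej => (8, false, none)) ?_
  intro a b h
  cases a <;> cases b <;> simp_all

/-- zero tests for all counters -/
def zx {k : ℕ} (z : Fin k → Bool) (j : ℕ) : Bool := if h : j < k then z ⟨j, h⟩ else true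

/-- moves of the first three counters -/
def m3 (a b c : Mv) (j : ℕ) : Mv :=
  if j = 0 then a else if j = 1 then b else if j = 2 then c else .S

/-- values of the first three counters -/
def cn (c d s : ℕ) (j : ℕ) : ℕ := if j = 0 then c else if j = 1 then d else if j = 2 then s else 0

/-- work symbols -/
def wo (b : Bool) : Option Unit := if b then some () else none

/-- the transition function -/
def ff (p : P0) (q : Qc (Qs p)) (i : Option Bool) (z : ℕ → Bool) (w : Option Unit) :
    Option (Qc (Qs p) × Bool × (ℕ → Mv) × Option Unit × Mv) :=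
  match q with
  | .ini => some (.rd, false, m3 .R .S .S, w, .S)
  | .rd => match i with
    | some b => some (.dbl b, true, m3 .S .S .S, w, .S)
    | none => some (.run (st p), false, m3 .S .S .S, w, .S)
  | .dbl b => some (if z 0 then (.db2 b, false, m3 .S .S .S, w, .S)
      else (.dbl b, false, m3 .L .R .R, w, .S))
  | .db2 b => some (if z 1 then (.db3 b, false, m3 .S .S .S, w, .S)
      else (.db2 b, false, m3 .R .L .S, w, .S))
  | .db3 b => some (if z 2 then (.rd, false, m3 (if b then .R else .S) .S .S, w, .S)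
      else (.db3 b, false, m3 .R .S .L, w, .S))
  | .run s => some ((match (dl p s z w.isSome).1 with
      | some s' => .run s'
      | none => .fin), false, (dl p s z w.isSome).2.1, wo (dl p s z w.isSome).2.2.1,
        (dl p s z w.isSome).2.2.2)
  | .fin => some (if z 1 then .rej else .acc, false, m3 .S .S .S, w, .S)
  | .acc => none
  | .rej => none

/-- the machine -/
def mc (p : P0) (hF : Finite (Qs p)) : CW where
  k := vb p
  Q := Qc (Qs p)
  A := Unit
  finQ := inferInstance
  finA := inferInstance
  start := .ini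
  acc := .acc
  δ := fun q i z w q' adv d w' m => ∃ o, ff p q i (zx z) w = some o ∧ q' = o.1 ∧ adv = o.2.1 ∧
    d = (fun j => o.2.2.1 j.1) ∧ w' = o.2.2.2.1 ∧ m = o.2.2.2.2
  noacc := by
    rintro i z w q' adv d w' m ⟨o, h, -⟩
    simp [ff] at h

lemma three_le (p : P0) : 3 ≤ vb p := by
  induction p with
  | nop => simp [vb]
  | inc j => simp [vb]
  | dec j => simp [vb]
  | rt => simp [vb]
  | lf => simp [vb]
  | wr b => simp [vb]
  | seq p q ihp ihq => simp [vb, ihp]
  | ifz j p q ihp ihq => simp [vb, ihp]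
  | ifw p q ihp ihq => simp [vb, ihp]
  | whn j p ihp => simp [vb, ihp]

lemma dl_congr (p : P0) : ∀ (s : Qs p) (z z' : ℕ → Bool) (b : Bool), (∀ j < vb p, z j = z' j) →
    dl p s z b = dl p s z' b := by
  induction p with
  | nop => intro s z z' b h; rfl
  | inc j => intro s z z' b h; rfl
  | dec j => intro s z z' b h; rfl
  | rt => intro s z z' b h; rfl
  | lf => intro s z z' b h; rfl
  | wr b => intro s z z' b h; rfl
  | seq p q ihp ihq =>
    intro s z z' b h
    rcases s with s | s
    · have := ihp s z z' b (fun j hj => h j (lt_of_lt_of_le hj (le_max_left _ _)))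
      simp only [dl, this]
    · have := ihq s z z' b (fun j hj => h j (lt_of_lt_of_le hj (le_max_right _ _)))
      simp only [dl, this]
  | ifz j p q ihp ihq =>
    intro s z z' b h
    rcases s with _ | (s | s)
    · have := h j (lt_of_lt_of_le (Nat.lt_succ_self j) (le_max_left _ _))
      simp only [dl, this]
    · have := ihp s z z' b (fun i hi => h i (lt_of_lt_of_le hi
        ((le_max_left _ _).trans (le_max_right _ _))))
      simp only [dl, this]
    · have := ihq s z z' b (fun i hi => h i (lt_of_lt_of_le hi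
        ((le_max_right _ _).trans (le_max_right _ _))))
      simp only [dl, this]
  | ifw p q ihp ihq =>
    intro s z z' b h
    rcases s with _ | (s | s)
    · rfl
    · have := ihp s z z' b (fun j hj => h j (lt_of_lt_of_le hj (le_max_left _ _)))
      simp only [dl, this]
    · have := ihq s z z' b (fun j hj => h j (lt_of_lt_of_le hj (le_max_right _ _)))
      simp only [dl, this]
  | whn j p ihp =>
    intro s z z' b h
    rcases s with _ | s
    · have := h j (lt_of_lt_of_le (Nat.lt_succ_self j) (le_max_left _ _))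
      simp only [dl, this]
    · have := ihp s z z' b (fun i hi => h i (lt_of_lt_of_le hi (le_max_right _ _)))
      simp only [dl, this]

lemma ff_congr (p : P0) (q : Qc (Qs p)) (i : Option Bool) (z z' : ℕ → Bool) (w : Option Unit)
    (h : ∀ j < vb p, z j = z' j) : ff p q i z w = ff p q i z' w := by
  have h3 := three_le p
  cases q with
  | ini => rfl
  | rd => rfl
  | dbl b => simp only [ff, h 0 (by omega)]
  | db2 b => simp only [ff, h 1 (by omega)]
  | db3 b => simp only [ff, h 2 (by omega)]
  | run s => simp only [ff, dl_congr p s z z' _ h]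
  | fin => simp only [ff, h 1 (by omega)]
  | acc => rfl
  | rej => rfl

section
variable (p : P0) (hF : Finite (Qs p)) (x : List Bool)

/-- the configurations of the machine -/
def em (q : Qc (Qs p)) (i : ℕ) (n : ℕ → ℕ) (h : ℕ) (w : ℕ → Bool) : CC (mc p hF) :=
  ⟨q, i, fun j => n j.1, h, fun r => wo (w r)⟩

lemma step_iff (q : Qc (Qs p)) (i : ℕ) (n : ℕ → ℕ) (h : ℕ) (w : ℕ → Bool) (q' : Qc (Qs p))
    (adv : Bool) (mv : ℕ → Mv) (b : Bool) (m : Mv)
    (ho : ff p q x[i]? (fun j => decide (n j = 0)) (wo (w h)) = some (q', adv, mv, wo b, m))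
    (c' : CC (mc p hF)) : CStep (mc p hF) x (em p hF q i n h w) c' ↔
      c' = em p hF q' (if adv then i + 1 else i) (fun j => (mv j).go (n j)) (m.go h)
        (Function.update w h b) := by
  have hz : ff p q x[i]? (zx (fun j : Fin (vb p) => decide (n j.1 = 0))) (wo (w h)) =
      some (q', adv, mv, wo b, m) := by
    rw [← ho]
    apply ff_congr
    intro j hj
    simp [zx, hj]
  constructor
  · rintro ⟨adv', d', a', m', ⟨o, h1, h2, h3, h4, h5, h6⟩, h7, h8, h9, h10⟩
    have h1' : ff p q x[i]? (zx (fun j : Fin (vb p) => decide (n j.1 = 0))) (wo (w h)) =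
      some o := h1
    rw [hz] at h1'
    have h1'' := Option.some.inj h1'
    subst h1''
    apply CC.ext
    · exact h2
    · rw [h7, h3]; rfl
    · funext j
      rw [h8, h4]; rfl
    · rw [h9, h6]; rfl
    · funext r
      rw [h10, h5]
      show (if r = h then wo b else wo (w r)) = wo (Function.update w h b r)
      by_cases hr : r = h
      · subst hr; simp
      · simp [hr]
  · intro hc
    refine ⟨adv, fun j => mv j.1, wo b, m, ⟨_, hz, ?_, rfl, rfl, rfl, rfl⟩, ?_, ?_, ?_, ?_⟩
    · rw [hc]; rfl
    · rw [hc]; rfl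
    · intro j; rw [hc]; rfl
    · rw [hc]; rfl
    · intro r
      rw [hc]
      show wo (Function.update w h b r) = (if r = h then wo b else wo (w r))
      by_cases hr : r = h
      · subst hr; simp
      · simp [hr]

lemma ev1 (q : Qc (Qs p)) (i : ℕ) (n : ℕ → ℕ) (h : ℕ) (w : ℕ → Bool) (q' : Qc (Qs p))
    (adv : Bool) (mv : ℕ → Mv) (b : Bool) (m : Mv)
    (ho : ff p q x[i]? (fun j => decide (n j = 0)) (wo (w h)) = some (q', adv, mv, wo b, m))
    (hq : q ≠ .acc) : Ev (CStep (mc p hF) x) (fun c => c.q = (mc p hF).acc) (em p hF q i n h w)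
      (em p hF q' (if adv then i + 1 else i) (fun j => (mv j).go (n j)) (m.go h)
        (Function.update w h b)) 1 :=
  Ev.step (step_iff p hF x q i n h w q' adv mv b m ho) hq

lemma m3_go (a b c : Mv) (u v t : ℕ) :
    (fun j => (m3 a b c j).go (cn u v t j)) = cn (a.go u) (b.go v) (c.go t) := by
  funext j
  unfold m3 cn
  split_ifs <;> rfl

/-- the accepting configurations -/
abbrev AA (c : CC (mc p hF)) : Prop := c.q = (mc p hF).acc

/-- the configurations of the reading phase -/
def rc (q : Qc (Qs p)) (i u v t : ℕ) : CC (mc p hF) := em p hF q i (cn u v t) 0 (fun _ => false)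

lemma ev3 (q : Qc (Qs p)) (i u v t : ℕ) (q' : Qc (Qs p)) (adv : Bool) (a b c : Mv)
    (ho : ff p q x[i]? (fun j => decide (cn u v t j = 0)) none =
      some (q', adv, m3 a b c, none, .S)) (hq : q ≠ .acc) :
    Ev (CStep (mc p hF) x) (AA p hF) (rc p hF q i u v t)
      (rc p hF q' (if adv then i + 1 else i) (a.go u) (b.go v) (c.go t)) 1 := by
  have h := ev1 p hF x q i (cn u v t) 0 (fun _ => false) q' adv (m3 a b c) false .S ho hq
  rw [m3_go] at h
  have e : Function.update (fun _ : ℕ => false) 0 false = fun _ => false := by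
    funext r; by_cases hr : r = 0
    · subst hr; simp
    · simp
  rw [e] at h
  exact h

lemma ev_dbl (b : Bool) (i : ℕ) : ∀ n d s : ℕ,
    Ev (CStep (mc p hF) x) (AA p hF) (rc p hF (.dbl b) i n d s)
      (rc p hF (.db2 b) i 0 (d + n) (s + n)) (n + 1) := by
  intro n
  induction n with
  | zero =>
    intro d s
    exact ev3 p hF x (.dbl b) i 0 d s (.db2 b) false .S .S .S (by simp [ff, cn]) (by simp)
  | succ n ih =>
    intro d s
    have h1 := ev3 p hF x (.dbl b) i (n + 1) d s (.dbl b) false .L .R .R (by simp [ff, cn])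
      (by simp)
    have h2 := h1.trans (ih (d + 1) (s + 1))
    rw [show d + 1 + n = d + (n + 1) by omega, show s + 1 + n = s + (n + 1) by omega] at h2
    exact h2.mono (by omega)

lemma ev_db2 (b : Bool) (i s : ℕ) : ∀ n c : ℕ,
    Ev (CStep (mc p hF) x) (AA p hF) (rc p hF (.db2 b) i c n s)
      (rc p hF (.db3 b) i (c + n) 0 s) (n + 1) := by
  intro n
  induction n with
  | zero =>
    intro c
    exact ev3 p hF x (.db2 b) i c 0 s (.db3 b) false .S .S .S (by simp [ff, cn]) (by simp)
  | succ n ih =>
    intro c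
    have h1 := ev3 p hF x (.db2 b) i c (n + 1) s (.db2 b) false .R .L .S (by simp [ff, cn])
      (by simp)
    have h2 := h1.trans (ih (c + 1))
    rw [show c + 1 + n = c + (n + 1) by omega] at h2
    exact h2.mono (by omega)

lemma ev_db3 (b : Bool) (i d : ℕ) : ∀ n c : ℕ,
    Ev (CStep (mc p hF) x) (AA p hF) (rc p hF (.db3 b) i c d n)
      (rc p hF .rd i (c + n + b.toNat) d 0) (n + 1) := by
  intro n
  induction n with
  | zero =>
    intro c
    have h := ev3 p hF x (.db3 b) i c d 0 .rd false (if b then .R else .S) .S .S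
      (by simp [ff, cn]) (by simp)
    cases b
    · exact h
    · exact h
  | succ n ih =>
    intro c
    have h1 := ev3 p hF x (.db3 b) i c d (n + 1) (.db3 b) false .R .S .L (by simp [ff, cn])
      (by simp)
    have h2 := h1.trans (ih (c + 1))
    rw [show c + 1 + n = c + (n + 1) by omega] at h2
    exact h2.mono (by omega)

lemma ev_bit (i c : ℕ) (b : Bool) (hx : x[i]? = some b) :
    Ev (CStep (mc p hF) x) (AA p hF) (rc p hF .rd i c 0 0)
      (rc p hF .rd (i + 1) (2 * c + b.toNat) 0 0) (3 * c + 4) := by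
  have h1 := ev3 p hF x .rd i c 0 0 (.dbl b) true .S .S .S (by simp [ff, hx]) (by simp)
  have h2 := ev_dbl p hF x b (i + 1) c 0 0
  have h3 := ev_db2 p hF x b (i + 1) (0 + c) (0 + c) 0
  have h4 := ev_db3 p hF x b (i + 1) 0 (0 + c) (0 + (0 + c))
  have h5 := ((h1.trans h2).trans h3).trans h4
  rw [show 0 + (0 + c) + (0 + c) + b.toNat = 2 * c + b.toNat by omega] at h5
  exact h5.mono (by omega)

lemma num_snoc (y : List Bool) (b : Bool) : num (y ++ [b]) = 2 * num y + b.toNat := by
  unfold Pool.Agent.H8.JS.num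
  rw [List.foldl_append]
  rfl

lemma num_pos (y : List Bool) : 1 ≤ num y := by
  induction y using List.reverseRecOn with
  | nil => simp [Pool.Agent.H8.JS.num]
  | append_singleton y b ih => rw [num_snoc]; omega

lemma ev_read : ∀ i, i ≤ x.length → Ev (CStep (mc p hF) x) (AA p hF)
    (rc p hF .rd 0 1 0 0) (rc p hF .rd i (num (x.take i)) 0 0) (7 * (num (x.take i) - 1)) := by
  intro i
  induction i with
  | zero =>
    intro _
    rw [List.take_zero]
    exact Ev.refl _
  | succ i ih =>
    intro hi
    have hi' : i < x.length := by omega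
    have hb : x[i]? = some x[i] := List.getElem?_eq_getElem hi'
    have h3 : num (x.take (i + 1)) = 2 * num (x.take i) + (x[i]).toNat := by
      rw [List.take_add_one, hb]
      exact num_snoc _ _
    have h4 := (ih (by omega)).trans (ev_bit p hF x i (num (x.take i)) x[i] hb)
    rw [← h3] at h4
    refine h4.mono ?_
    have := num_pos (x.take i)
    omega

lemma ev_start : Ev (CStep (mc p hF) x) (AA p hF) (cinit (mc p hF))
    (em p hF (.run (st p)) x.length (z0 (num x)).n 0 (fun _ => false)) (7 * num x - 5) := by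
  have h0 : cinit (mc p hF) = rc p hF .ini 0 0 0 0 := by
    apply CC.ext
    · rfl
    · rfl
    · funext j
      show 0 = cn 0 0 0 j.1
      unfold cn
      split_ifs <;> rfl
    · rfl
    · rfl
  rw [h0]
  have h1 := ev3 p hF x .ini 0 0 0 0 .rd false .R .S .S (by simp [ff]) (by simp)
  have h2 := ev_read p hF x x.length le_rfl
  rw [List.take_length] at h2
  have h3 := ev3 p hF x .rd x.length (num x) 0 0 (.run (st p)) false .S .S .S
    (by simp [ff]) (by simp)
  have h4 := (h1.trans h2).trans h3
  have e : rc p hF (.run (st p)) x.length (num x) 0 0 =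
      em p hF (.run (st p)) x.length (z0 (num x)).n 0 (fun _ => false) := by
    unfold rc
    congr 1
    funext j
    show cn (num x) 0 0 j = if j = 0 then num x else 0
    unfold cn
    split_ifs <;> rfl
  have h5 := h4.mono (show 1 + 7 * (num x - 1) + 1 ≤ 7 * num x - 5 by
    have := num_pos x
    omega)
  rw [← e]
  exact h5

lemma ev_run (i : ℕ) (s : Qs p) (σ σ' : Z0) (t : ℕ) (h : Rch p s σ t σ') :
    Ev (CStep (mc p hF) x) (AA p hF) (em p hF (.run s) i σ.n σ.h σ.w)
      (em p hF .fin i σ'.n σ'.h σ'.w) t := by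
  induction h with
  | fin s σ σ' h =>
    have hw : (wo (σ.w σ.h)).isSome = σ.w σ.h := by cases σ.w σ.h <;> rfl
    have h1 : (dl p s (fun j => decide (σ.n j = 0)) (σ.w σ.h)).1 = none := congrArg Prod.fst h
    have h2 := congrArg Prod.snd h
    have h3 := ev1 p hF x (.run s) i σ.n σ.h σ.w .fin false
      (dl p s (fun j => decide (σ.n j = 0)) (σ.w σ.h)).2.1
      (dl p s (fun j => decide (σ.n j = 0)) (σ.w σ.h)).2.2.1
      (dl p s (fun j => decide (σ.n j = 0)) (σ.w σ.h)).2.2.2 (by
        simp only [ff, hw, h1]) (by simp)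
    simp only at h2
    rw [← h2]
    exact h3
  | stp s s' σ σ' σ'' t h h' ih =>
    have hw : (wo (σ.w σ.h)).isSome = σ.w σ.h := by cases σ.w σ.h <;> rfl
    have h1 : (dl p s (fun j => decide (σ.n j = 0)) (σ.w σ.h)).1 = some s' :=
      congrArg Prod.fst h
    have h2 := congrArg Prod.snd h
    have h3 := ev1 p hF x (.run s) i σ.n σ.h σ.w (.run s') false
      (dl p s (fun j => decide (σ.n j = 0)) (σ.w σ.h)).2.1
      (dl p s (fun j => decide (σ.n j = 0)) (σ.w σ.h)).2.2.1
      (dl p s (fun j => decide (σ.n j = 0)) (σ.w σ.h)).2.2.2 (by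
        simp only [ff, hw, h1]) (by simp)
    simp only at h2
    rw [← h2] at ih
    have h4 := h3.trans ih
    rw [add_comm 1 t] at h4
    exact h4

lemma ev_fin (i : ℕ) (σ : Z0) : Ev (CStep (mc p hF) x) (AA p hF)
    (em p hF .fin i σ.n σ.h σ.w)
    (em p hF (if σ.n 1 = 0 then .rej else .acc) i σ.n σ.h σ.w) 1 := by
  have h := ev1 p hF x .fin i σ.n σ.h σ.w (if σ.n 1 = 0 then .rej else .acc) false
    (m3 .S .S .S) (σ.w σ.h) .S (by simp [ff]) (by simp)
  have e : (fun j => (m3 .S .S .S j).go (σ.n j)) = σ.n := by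
    funext j
    unfold m3
    split_ifs <;> rfl
  rw [e, Function.update_eq_self] at h
  exact h

lemma nostep (q : Qc (Qs p)) (hq : q = .acc ∨ q = .rej) (i : ℕ) (n : ℕ → ℕ) (h : ℕ)
    (w : ℕ → Bool) (c : CC (mc p hF)) : ¬ CStep (mc p hF) x (em p hF q i n h w) c := by
  rintro ⟨adv', d', a', m', ⟨o, h1, -⟩, -⟩
  rcases hq with rfl | rfl
  · exact absurd h1 (by simp [ff, em])
  · exact absurd h1 (by simp [ff, em])

end

/-- **Row MC.** -/
theorem pf_MC (hCM : D_CM) : D_MC := by
  intro p
  have hF : Finite (Qs p) := hCM.1 p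
  refine ⟨mc p hF, ?_, ?_⟩
  · rintro q i z w q₁ v₁ d₁ w₁ m₁ q₂ v₂ d₂ w₂ m₂ ⟨o, h1, h2, h3, h4, h5, h6⟩
      ⟨o', h1', h2', h3', h4', h5', h6'⟩
    rw [h1] at h1'
    have := Option.some.inj h1'
    subst this
    exact ⟨h2.trans h2'.symm, h3.trans h3'.symm, h4.trans h4'.symm, h5.trans h5'.symm,
      h6.trans h6'.symm⟩
  · intro x σ t hR
    have h1 := ev_start p hF x
    have h2 := ev_run p hF x x.length (st p) (z0 (num x)) σ t hR
    have h3 := ev_fin p hF x x.length σ
    have h4 := (h1.trans h2).trans h3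
    have hns := nostep p hF x (if σ.n 1 = 0 then .rej else .acc)
      (by by_cases h : σ.n 1 = 0 <;> simp [h]) x.length σ.n σ.h σ.w
    refine ⟨?_, ?_⟩
    · refine h4.1.trans ?_
      rw [ac_iff]
      constructor
      · rintro (h | ⟨c', h, -⟩)
        · intro h0
          rw [if_pos h0] at h
          have h' : (Qc.rej : Qc (Qs p)) = Qc.acc := h
          exact absurd h' (by simp)
        · exact absurd h (hns c')
      · intro h
        left
        rw [if_neg h]
        rfl
    · have h5 := h4.2 0 ((ru_zero _ _).mpr hns)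
      exact h5.mono (by omega)

end Pool.Agent.H46.DE
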