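import Pool.Agent.H8.DE.Targets
import Pool.Agent.H8.VR.Cor

/-!
# Row SK of the board `det_modules`: one relation: linear orders, forest orders, equivalence relations
-/

set_option autoImplicit false

namespace Pool.Agent.H46.DE

open Pool.Agent.H69.Sp Pool.Agent.H69.VR Pool.Agent.H8.VR Pool.Agent.H8.JS Pool.Agent.H8.MC
  Pool.Agent.H8.DE

/-- translation of formulas, the binary symbols are renamed -/
def tr (ρ : ℕ → ℕ) : Pool.Agent.H16.TO.C2 → C2
  | .un i v => .un i v
  | .bi i v w => .bi (ρ i) v w
  | .eq v w => .eq v w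
  | .neg φ => .neg (tr ρ φ)
  | .and φ ψ => .and (tr ρ φ) (tr ρ ψ)
  | .cnt k v φ => .cnt k 1 0 v (tr ρ φ)

theorem sat_tr {A : Type} (ρ : ℕ → ℕ) (P : ℕ → A → Prop) (R : ℕ → A → A → Prop)
    (φ : Pool.Agent.H16.TO.C2) : ∀ s : Bool → A,
    (tr ρ φ).Sat P R s ↔ φ.Sat P (fun i => R (ρ i)) s := by
  induction φ with
  | un i v => intro s; exact Iff.rfl
  | bi i v w => intro s; exact Iff.rfl
  | eq v w => intro s; exact Iff.rfl
  | neg φ ih => intro s; exact not_congr (ih s)
  | and φ ψ ih1 ih2 => intro s; exact and_congr (ih1 s) (ih2 s)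
  | cnt k v φ ih =>
    intro s
    have h : {a | (tr ρ φ).Sat P R (Function.update s v a)} =
        {a | φ.Sat P (fun i => R (ρ i)) (Function.update s v a)} := by
      ext a
      exact ih _
    show (k ≤ {a | (tr ρ φ).Sat P R (Function.update s v a)}.ncard ∧
      {a | (tr ρ φ).Sat P R (Function.update s v a)}.ncard ≡ 0 [MOD 1]) ↔
      k ≤ {a | φ.Sat P (fun i => R (ρ i)) (Function.update s v a)}.ncard
    rw [h]
    exact ⟨fun h => h.1, fun h => ⟨h, Nat.modEq_one⟩⟩

/-- the order on a finite set -/
def QQ {A : Type} (r t : A → A → Prop) (X : Finset A) : Prop :=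
  (∀ a ∈ X, ¬ t a a) ∧ (∀ a ∈ X, ∀ b ∈ X, ∀ c ∈ X, t a b → t b c → t a c) ∧
    (∀ a ∈ X, ∀ b ∈ X, a = b ∨ t a b ∨ t b a) ∧ (∀ a ∈ X, ∀ b ∈ X, r a b → t a b) ∧
    ∀ a ∈ X, ∀ b ∈ X, ∀ c ∈ X, r a c → t a b → t b c → r a b

open Classical in
theorem doc_step {A : Type} (r : A → A → Prop) (h1 : ∀ a, ¬ r a a)
    (h2 : ∀ a b c, r a b → r b c → r a c) (h3 : ∀ a b c, r a c → r b c → a = b ∨ r a b ∨ r b a)
    (X : Finset A) (m : A) (hm : m ∉ X) (hmax : ∀ x ∈ X, ¬ r m x) (t : A → A → Prop)
    (h : QQ r t X) : ∃ t', QQ r t' (insert m X) := by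
  obtain ⟨q1, q2, q3, q4, q5⟩ := h
  have hne : ∀ a ∈ X, a ≠ m := fun a ha hh => hm (hh ▸ ha)
  refine ⟨fun a b => if a = m then (b ≠ m ∧ ∀ x ∈ X, r x m → t x b) else
    if b = m then (∃ x ∈ X, r x m ∧ (a = x ∨ t a x)) else t a b, ?_⟩
  obtain ⟨t', ht'⟩ : ∃ t' : A → A → Prop, t' = fun a b =>
    if a = m then (b ≠ m ∧ ∀ x ∈ X, r x m → t x b) else
    if b = m then (∃ x ∈ X, r x m ∧ (a = x ∨ t a x)) else t a b := ⟨_, rfl⟩
  rw [← ht']
  have e1 : ∀ a ∈ X, ∀ b ∈ X, (t' a b ↔ t a b) := by
    intro a ha b hb
    rw [ht']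
    simp only [if_neg (hne a ha), if_neg (hne b hb)]
  have e2 : ∀ b ∈ X, (t' m b ↔ ∀ x ∈ X, r x m → t x b) := by
    intro b hb
    rw [ht']
    simp [hne b hb]
  have e3 : ∀ a ∈ X, (t' a m ↔ ∃ x ∈ X, r x m ∧ (a = x ∨ t a x)) := by
    intro a ha
    rw [ht']
    simp [hne a ha]
  have e4 : ¬ t' m m := by
    rw [ht']
    simp
  -- exclusivity
  have ex : ∀ a ∈ X, t' a m → t' m a → False := by
    intro a ha g1 g2
    rw [e3 a ha] at g1
    rw [e2 a ha] at g2
    obtain ⟨x, hx, hxm, hax⟩ := g1
    have g3 := g2 x hx hxm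
    rcases hax with rfl | hax
    · exact q1 a ha g3
    · exact q1 a ha (q2 a ha x hx a ha hax g3)
  refine ⟨?_, ?_, ?_, ?_, ?_⟩
  · intro a ja
    rcases Finset.mem_insert.mp ja with rfl | ha
    · exact e4
    · rw [e1 a ha a ha]; exact q1 a ha
  · intro a ja b jb c jc g1 g2
    rcases Finset.mem_insert.mp ja with rfl | ha
    · rcases Finset.mem_insert.mp jb with rfl | hb
      · exact g2
      · rcases Finset.mem_insert.mp jc with rfl | hc
        · exact absurd (ex b hb g2 g1) (fun h => h)
        · rw [e2 b hb] at g1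
          rw [e1 b hb c hc] at g2
          rw [e2 c hc]
          exact fun x hx hxm => q2 x hx b hb c hc (g1 x hx hxm) g2
    · rcases Finset.mem_insert.mp jb with rfl | hb
      · rcases Finset.mem_insert.mp jc with rfl | hc
        · exact g1
        · rw [e3 a ha] at g1
          rw [e2 c hc] at g2
          rw [e1 a ha c hc]
          obtain ⟨x, hx, hxm, hax⟩ := g1
          have g3 := g2 x hx hxm
          rcases hax with rfl | hax
          · exact g3
          · exact q2 a ha x hx c hc hax g3
      · rcases Finset.mem_insert.mp jc with rfl | hc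
        · rw [e1 a ha b hb] at g1
          rw [e3 b hb] at g2
          rw [e3 a ha]
          obtain ⟨x, hx, hxm, hbx⟩ := g2
          refine ⟨x, hx, hxm, Or.inr ?_⟩
          rcases hbx with rfl | hbx
          · exact g1
          · exact q2 a ha b hb x hx g1 hbx
        · rw [e1 a ha b hb] at g1
          rw [e1 b hb c hc] at g2
          rw [e1 a ha c hc]
          exact q2 a ha b hb c hc g1 g2
  · have tot : ∀ a ∈ X, t' m a ∨ t' a m := by
      intro a ha
      rw [e2 a ha, e3 a ha]
      by_cases hh : ∀ x ∈ X, r x m → t x a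
      · exact Or.inl hh
      · push Not at hh
        obtain ⟨x, hx, hxm, hxa⟩ := hh
        refine Or.inr ⟨x, hx, hxm, ?_⟩
        rcases q3 a ha x hx with h | h | h
        · exact Or.inl h
        · exact Or.inr h
        · exact absurd h hxa
    intro a ja b jb
    rcases Finset.mem_insert.mp ja with rfl | ha
    · rcases Finset.mem_insert.mp jb with rfl | hb
      · exact Or.inl rfl
      · exact Or.inr (tot b hb)
    · rcases Finset.mem_insert.mp jb with rfl | hb
      · exact Or.inr (tot a ha).symm
      · rw [e1 a ha b hb, e1 b hb a ha]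
        exact q3 a ha b hb
  · intro a ja b jb g
    rcases Finset.mem_insert.mp ja with rfl | ha
    · rcases Finset.mem_insert.mp jb with rfl | hb
      · exact absurd g (h1 _)
      · exact absurd g (hmax b hb)
    · rcases Finset.mem_insert.mp jb with rfl | hb
      · rw [e3 a ha]
        exact ⟨a, ha, g, Or.inl rfl⟩
      · rw [e1 a ha b hb]
        exact q4 a ha b hb g
  · intro a ja b jb c jc g1 g2 g3
    rcases Finset.mem_insert.mp ja with rfl | ha
    · rcases Finset.mem_insert.mp jc with rfl | hc
      · exact absurd g1 (h1 _)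
      · exact absurd g1 (hmax c hc)
    · rcases Finset.mem_insert.mp jb with rfl | hb
      · rcases Finset.mem_insert.mp jc with rfl | hc
        · exact absurd g3 e4
        · rw [e3 a ha] at g2
          rw [e2 c hc] at g3
          obtain ⟨x, hx, hxm, hax⟩ := g2
          rcases hax with rfl | hax
          · exact hxm
          · exact h2 a x _ (q5 a ha x hx c hc g1 hax (g3 x hx hxm)) hxm
      · rcases Finset.mem_insert.mp jc with rfl | hc
        · rw [e1 a ha b hb] at g2
          rw [e3 b hb] at g3
          obtain ⟨x, hx, hxm, hbx⟩ := g3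
          rcases hbx with rfl | hbx
          · rcases h3 a b _ g1 hxm with h | h | h
            · exact absurd (h ▸ g2) (q1 a ha)
            · exact h
            · exact absurd (q2 a ha b hb a ha g2 (q4 b hb a ha h)) (q1 a ha)
          · have g4 := q2 a ha b hb x hx g2 hbx
            have g5 : r a x := by
              rcases h3 a x _ g1 hxm with h | h | h
              · exact absurd (h ▸ g4) (q1 a ha)
              · exact h
              · exact absurd (q2 a ha x hx a ha g4 (q4 x hx a ha h)) (q1 a ha)
            exact q5 a ha b hb x hx g5 g2 hbx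
        · rw [e1 a ha b hb] at g2
          rw [e1 b hb c hc] at g3
          exact q5 a ha b hb c hc g1 g2 g3

open Classical in
/-- every finite forest order has a document order -/
theorem doc {A : Type} [Finite A] (r : A → A → Prop) (h1 : ∀ a, ¬ r a a)
    (h2 : ∀ a b c, r a b → r b c → r a c) (h3 : ∀ a b c, r a c → r b c → a = b ∨ r a b ∨ r b a) :
    ∀ (n : ℕ) (X : Finset A), X.card = n → ∃ t, QQ r t X := by
  have wf : WellFounded (fun a b => r b a) := by
    have : IsTrans A (fun a b => r b a) := ⟨fun a b c h h' => h2 c b a h' h⟩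
    have : Std.Irrefl (fun a b => r b a) := ⟨fun a => h1 a⟩
    exact Finite.wellFounded_of_trans_of_irrefl _
  intro n
  induction n with
  | zero =>
    intro X hX
    rw [Finset.card_eq_zero] at hX
    subst hX
    exact ⟨fun _ _ => False, by simp [QQ]⟩
  | succ n ih =>
    intro X hX
    have hne : (X : Set A).Nonempty := by
      rw [Finset.coe_nonempty, ← Finset.card_pos]
      omega
    obtain ⟨m, hm, hmin⟩ := wf.has_min (X : Set A) hne
    have hmX : m ∈ X := hm
    have hc : (X.erase m).card = n := by
      rw [Finset.card_erase_of_mem hmX]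
      omega
    obtain ⟨t, ht⟩ := ih (X.erase m) hc
    obtain ⟨t', ht'⟩ := doc_step r h1 h2 h3 (X.erase m) m (Finset.notMem_erase m X)
      (fun x hx => hmin x (Finset.mem_of_mem_erase hx)) t ht
    rw [Finset.insert_erase hmX] at ht'
    exact ⟨t', ht'⟩

/-- forest orders with a document order -/
theorem doc' {A : Type} [Finite A] (r : A → A → Prop) (h1 : ∀ a, ¬ r a a)
    (h2 : ∀ a b c, r a b → r b c → r a c) (h3 : ∀ a b c, r a c → r b c → a = b ∨ r a b ∨ r b a) :
    ∃ t : A → A → Prop, IsStrictTotalOrder A t ∧ (∀ a b, r a b → t a b) ∧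
      ∀ a b c, r a c → t a b → t b c → r a b := by
  have := Fintype.ofFinite A
  obtain ⟨t, q1, q2, q3, q4, q5⟩ := doc r h1 h2 h3 _ Finset.univ rfl
  refine ⟨t, ?_, fun a b => q4 a (Finset.mem_univ _) b (Finset.mem_univ _),
    fun a b c => q5 a (Finset.mem_univ _) b (Finset.mem_univ _) c (Finset.mem_univ _)⟩
  exact {
    trichotomous := fun a b g1 g2 => by
      rcases q3 a (Finset.mem_univ _) b (Finset.mem_univ _) with h | h | h
      · exact h
      · exact absurd h g1
      · exact absurd h g2
    irrefl := fun a => q1 a (Finset.mem_univ _)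
    trans := fun a b c => q2 a (Finset.mem_univ _) b (Finset.mem_univ _) c (Finset.mem_univ _) }

/-- **Row SK.** -/
theorem pf_SK (hGR : D_GR) (hFR : T_FR) (hNE : T_NE) : D_SK := by
  intro l τ φ hl
  have hbel : ∀ m, (MS.eq 0 0).Below m := fun m => trivial
  have hE : ∀ (k : ℕ) (ψ : C2), lang (specEM k (.eq 0 0) ψ) ∈ DE := by
    intro k ψ
    rw [specEM_eq hNE]
    refine hGR (Fin (k + 1)) Unit (neG k) ?_ k (Fin.last k) _ ψ (hbel k)
    intro o ho
    simp only [neG, List.mem_flatMap, List.mem_map] at ho
    obtain ⟨a, -, b, -, c, -, u, -, rfl⟩ := ho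
    rfl
  have hF : ∀ ψ : C2, lang (specFM (.eq 0 0) ψ) ∈ DE := by
    intro ψ
    rw [specFM_eq hFR]
    refine hGR Bool Unit forG ?_ 2 true _ ψ (hbel 2)
    intro o ho
    simp only [forG, List.mem_cons, List.not_mem_nil, or_false] at ho
    rcases ho with rfl | rfl <;> rfl
  rcases Nat.le_one_iff_eq_zero_or_eq_one.mp hl with rfl | rfl
  · have e : Pool.Agent.H8.DI.specK 0 τ φ = specEM 0 (.eq 0 0) (tr id φ) := by
      ext n
      refine and_congr_right fun hn => exists_congr fun P => exists_congr fun R => ?_
      constructor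
      · rintro ⟨-, h⟩
        exact ⟨⟨fun i hi => absurd hi (by omega), fun i hi => absurd hi (by omega)⟩,
          fun e V => rfl, fun v => (sat_tr id P R φ v).mpr (h v)⟩
      · rintro ⟨-, -, h⟩
        exact ⟨fun j hj => absurd hj (by omega), fun v => (sat_tr id P R φ v).mp (h v)⟩
    rw [e]
    exact hE 0 _
  · cases hτ : τ 0 with
    | eqv =>
      have e : Pool.Agent.H8.DI.specK 1 τ φ = specEM 1 (.eq 0 0) (tr id φ) := by
        ext n
        refine and_congr_right fun hn => exists_congr fun P => exists_congr fun R => ?_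
        constructor
        · rintro ⟨h0, h⟩
          have h1 := h0 0 (by omega)
          rw [hτ] at h1
          refine ⟨⟨fun i hi => ?_, fun i hi => absurd hi (by omega)⟩,
            fun e V => rfl, fun v => (sat_tr id P R φ v).mpr (h v)⟩
          have : i = 0 := by omega
          subst this
          exact h1
        · rintro ⟨h0, -, h⟩
          refine ⟨fun j hj => ?_, fun v => (sat_tr id P R φ v).mp (h v)⟩
          have : j = 0 := by omega
          subst this
          rw [hτ]
          exact h0.1 0 (by omega)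
      rw [e]
      exact hE 1 _
    | ord =>
      have e : Pool.Agent.H8.DI.specK 1 τ φ = specFM (.eq 0 0) (tr (fun i => i + 1) φ) := by
        ext n
        refine and_congr_right fun hn => exists_congr fun P => ?_
        constructor
        · rintro ⟨R, h0, h⟩
          have h1 := h0 0 (by omega)
          rw [hτ] at h1
          refine ⟨fun i => if i = 0 then fun _ _ => False else R (i - 1),
            ⟨h1, fun a b hh => absurd hh (fun g => g), fun a b c hh => absurd hh (fun g => g),
              fun a b c hh => absurd hh (fun g => g)⟩, fun e V => rfl, fun v => ?_⟩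
          exact (sat_tr (fun i => i + 1) P _ φ v).mpr (h v)
        · rintro ⟨R, h0, -, h⟩
          refine ⟨fun i => R (i + 1), fun j hj => ?_,
            fun v => (sat_tr (fun i => i + 1) P R φ v).mp (h v)⟩
          have : j = 0 := by omega
          subst this
          rw [hτ]
          exact h0.1
      rw [e]
      exact hF _
    | tree =>
      have e : Pool.Agent.H8.DI.specK 1 τ φ =
          specFM (.eq 0 0) (tr (fun i => if i = 0 then 0 else i + 1) φ) := by
        ext n
        refine and_congr_right fun hn => exists_congr fun P => ?_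
        constructor
        · rintro ⟨R, h0, h⟩
          have h1 := h0 0 (by omega)
          rw [hτ] at h1
          obtain ⟨g1, g2, g3⟩ := h1
          obtain ⟨t, t1, t2, t3⟩ := doc' (R 0) g1 g2 g3
          refine ⟨fun i => if i = 0 then R 0 else if i = 1 then t else R (i - 1),
            ⟨t1, t2, g2, t3⟩, fun e V => rfl, fun v => ?_⟩
          refine (sat_tr (fun i => if i = 0 then 0 else i + 1) P _ φ v).mpr ?_
          have e2 : (fun i => (fun i => if i = 0 then R 0 else if i = 1 then t else R (i - 1))
              ((fun i => if i = 0 then 0 else i + 1) i)) = R := by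
            funext i
            rcases Nat.eq_zero_or_pos i with rfl | hi
            · rfl
            · have hi0 : i ≠ 0 := by omega
              simp [hi0]
          rw [e2]
          exact h v
        · rintro ⟨R, h0, -, h⟩
          refine ⟨fun i => R (if i = 0 then 0 else i + 1), fun j hj => ?_,
            fun v => (sat_tr (fun i => if i = 0 then 0 else i + 1) P R φ v).mp (h v)⟩
          have : j = 0 := by omega
          subst this
          rw [hτ]
          obtain ⟨o1, o2, o3, o4⟩ := h0
          have irr : ∀ a, ¬ R 1 a a := o1.toIsStrictOrder.toIrrefl.irrefl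
          have trc : ∀ a b, a = b ∨ R 1 a b ∨ R 1 b a := by
            intro a b
            by_cases g1 : R 1 a b
            · exact Or.inr (Or.inl g1)
            · by_cases g2 : R 1 b a
              · exact Or.inr (Or.inr g2)
              · exact Or.inl (o1.toTrichotomous.trichotomous a b g1 g2)
          refine ⟨fun a ha => irr a (o2 a a ha), o3, fun a b c g1 g2 => ?_⟩
          rcases trc a b with g | g | g
          · exact Or.inl g
          · exact Or.inr (Or.inl (o4 a b c g1 g (o2 b c g2)))
          · exact Or.inr (Or.inr (o4 b a c g2 g (o2 a c g1)))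
      rw [e]
      exact hF _

end Pool.Agent.H46.DE
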